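import Mathlib
import Pool.Agent.Helper999.Task

set_option autoImplicit false

/-!
Extending a small group acting freely on a huge set so that all conjugation problems get solved.
-/

namespace Pool.Agent.Helper999.UN

open Pool.Agent.Helper999

open Cardinal

universe u v w

/-- the huge set -/
abbrev Om : Type (u+1) := Ordinal.{u}

/-- a small group of permutations acting freely -/
def Good (H : Subgroup (Equiv.Perm Om.{u})) : Prop :=
  Small.{u} H ∧ ∀ h ∈ H, ∀ x : Om, h x = x → h = 1

/-- `H'` contains solutions to all conjugation problems over `H`. -/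
def Solves {G : Type v} [Group G] (H H' : Subgroup G) : Prop :=
  ∀ (F : Type u) [Group F] (a b : F →* G), Function.Injective a → Function.Injective b →
    (∀ f, a f ∈ H) → (∀ f, b f ∈ H) →
    ∃ c ∈ H', (∀ f, c * a f * c⁻¹ = b f) ∧
      ∀ w : List (ℤˣ × G), w ≠ [] → (∀ p ∈ w, p.2 ∈ H) → Red a.range b.range w → wprod c w ∉ H

theorem wprod_map {G : Type v} {K : Type w} [Group G] [Group K] (ψ : G →* K) (c : G) (w : List (ℤˣ × G)) :
    ψ (wprod c w) = wprod (ψ c) (w.map (fun p => (p.1, ψ p.2))) := by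
  induction w with
  | nil => simp
  | cons p w ih => simp [ih]

theorem Solves.comap {G : Type v} {K : Type w} [Group G] [Group K] (j : G →* K)
    (hj : Function.Injective j) {H H' : Subgroup K} (hH' : H' ≤ j.range) (h : Solves.{u} H H') :
    Solves.{u} (H.comap j) (H'.comap j) := by
  intro F _ a b ha hb haH hbH
  obtain ⟨c', hc', hconj, hw⟩ := h F (j.comp a) (j.comp b) (hj.comp ha) (hj.comp hb) haH hbH
  obtain ⟨c, rfl⟩ := hH' hc'
  refine ⟨c, hc', ?_, ?_⟩
  · intro f
    apply hj
    have := hconj f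
    simpa using this
  · intro w hw0 hwH hred hmem
    refine hw (w.map (fun p => (p.1, j p.2))) (by simpa using hw0) ?_ ?_ ?_
    · intro p hp
      rw [List.mem_map] at hp
      obtain ⟨q, hq, rfl⟩ := hp
      exact hwH q hq
    · unfold Red at hred ⊢
      rw [List.isChain_map]
      refine hred.imp ?_
      intro p q h2 h3
      apply h2
      simp only at h3
      unfold HNNExtension.toSubgroup at h3 ⊢
      split_ifs at h3 ⊢
      · obtain ⟨f, hf⟩ := h3
        exact ⟨f, hj hf⟩
      · obtain ⟨f, hf⟩ := h3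
        exact ⟨f, hj hf⟩
    · rw [← wprod_map]
      exact hmem

theorem ext_good (H : Subgroup (Equiv.Perm Om.{u})) (hH : Good H) :
    ∃ H' : Subgroup (Equiv.Perm Om.{u}), Good H' ∧ H ≤ H' ∧ Solves.{u} H H' := by
  classical
  obtain ⟨hsmall, hfree⟩ := hH
  let K := Shrink.{u} H
  let ε : H ≃* K := Shrink.mulEquiv.symm
  obtain ⟨P, _, l, hl, hP⟩ := step.{u, u} K
  have hOm : #(Om.{u}) = univ.{u, u+1} := Cardinal.mk_ordinal
  have hOminf : ℵ₀ ≤ #(Om.{u}) := by rw [hOm]; exact Cardinal.aleph0_lt_univ.le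
  have hHlt : #H < #(Om.{u}) := by
    have h1 : #H = Cardinal.lift.{u+1} #K := by
      have h2 : Cardinal.lift.{u} #H = Cardinal.lift.{u+1} #K := Cardinal.mk_congr_lift ε.toEquiv
      rw [← h2, Cardinal.lift_id'.{u, u+1}]
    rw [h1, hOm]
    exact Cardinal.lift_lt_univ.{u} #K
  have hPcard : #(P × Om.{u}) = #(Om.{u}) := by
    rw [Cardinal.mk_prod, Cardinal.lift_id'.{u, u+1}]
    apply Cardinal.mul_eq_right hOminf
    · rw [hOm]; exact (Cardinal.lift_lt_univ.{u} #P).le
    · simp [Cardinal.mk_ne_zero P]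
  obtain ⟨e, he⟩ := exists_equivariant_perm (H.subtype)
    ((leftPerm P Om.{u}).comp (l.comp ε.toMonoidHom))
    (fun h s hs => Subtype.ext (hfree h h.2 s hs))
    (fun h s hs => by
      have h1 := leftPerm_free P Om.{u} _ s hs
      have h2 : ε h = 1 := hl (h1.trans (map_one _).symm)
      simpa using h2)
    hPcard.symm hOminf hHlt
  let ψ : P →* Equiv.Perm Om.{u} := (e.symm.permCongrHom).toMonoidHom.comp (leftPerm P Om.{u})
  have hψ : ∀ n s, ψ n s = e.symm (leftPerm P Om.{u} n (e s)) := fun n s => rfl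
  have hψl : ∀ h : H, ψ (l (ε h)) = h := by
    intro h
    apply Equiv.ext
    intro s
    rw [hψ, Equiv.symm_apply_eq]
    exact (he h s).symm
  have hψfree : ∀ n s, ψ n s = s → n = 1 := by
    intro n s hs
    rw [hψ, Equiv.symm_apply_eq] at hs
    exact leftPerm_free P Om.{u} n (e s) hs
  have hψinj : Function.Injective ψ := by
    rw [injective_iff_map_eq_one]
    intro n hn
    apply hψfree n 0
    rw [hn]; rfl
  refine ⟨ψ.range, ⟨?_, ?_⟩, ?_, ?_⟩
  · exact small_of_surjective (f := ψ.rangeRestrict) ψ.rangeRestrict_surjective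
  · rintro h ⟨p, rfl⟩ x hx
    rw [hψfree p x hx, map_one]
  · intro h hh
    exact ⟨l (ε ⟨h, hh⟩), hψl ⟨h, hh⟩⟩
  · intro F _ a b ha hb haH hbH
    let a' : F →* K := ε.toMonoidHom.comp (a.codRestrict H haH)
    let b' : F →* K := ε.toMonoidHom.comp (b.codRestrict H hbH)
    have ha' : ∀ f, ψ (l (a' f)) = a f := fun f => hψl ⟨a f, haH f⟩
    have hb' : ∀ f, ψ (l (b' f)) = b f := fun f => hψl ⟨b f, hbH f⟩
    obtain ⟨c, hc, hw⟩ := hP F a' b'
      (fun x y hxy => ha (by rw [← ha', hxy, ha']))
      (fun x y hxy => hb (by rw [← hb', hxy, hb']))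
    refine ⟨ψ c, ⟨c, rfl⟩, ?_, ?_⟩
    · intro f
      rw [← ha', ← hb', ← hc, map_mul, map_mul, map_inv]
    · intro w hw0 hwH hred hmem
      let κ : Equiv.Perm Om.{u} → K := fun g => if h : g ∈ H then ε ⟨g, h⟩ else 1
      have hκ : ∀ g ∈ H, ψ (l (κ g)) = g := by
        intro g hg
        simp only [κ, dif_pos hg]
        exact hψl ⟨g, hg⟩
      let w' : List (ℤˣ × K) := w.map (fun p => (p.1, κ p.2))
      have h1 : wprod (ψ c) w = ψ (wprod c (w'.map (fun p => (p.1, l p.2)))) := by
        rw [wprod_map]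
        congr 1
        simp only [w', List.map_map]
        conv_lhs => rw [← List.map_id w]
        apply List.map_congr_left
        intro p hp
        simp [hκ p.2 (hwH p hp)]
      refine hw w' (by simpa [w'] using hw0) ?_ ?_
      · unfold Red
        simp only [w']
        rw [List.isChain_map]
        unfold Red at hred
        refine List.IsChain.imp_of_mem_imp ?_ hred
        intro p q hp hq h2 h3
        apply h2
        rw [← hκ p.2 (hwH p hp)]
        simp only at h3
        unfold HNNExtension.toSubgroup at h3 ⊢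
        split_ifs at h3 ⊢
        · obtain ⟨f, hf⟩ := h3
          exact ⟨f, by rw [← hf, ha']⟩
        · obtain ⟨f, hf⟩ := h3
          exact ⟨f, by rw [← hf, hb']⟩
      · rw [h1] at hmem
        refine ⟨ε ⟨_, hmem⟩, ?_⟩
        apply hψinj
        rw [hψl]

end Pool.Agent.Helper999.UN
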