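import Mathlib
import Pool.Agent.Helper999.UN.Ext

set_option autoImplicit false

/-!
A well-ordered chain of small groups acting freely, each solving the conjugation problems of
the earlier ones.
-/

namespace Pool.Agent.Helper999.UN

open Pool.Agent.Helper999

open Cardinal

universe u v w

open Classical in
/-- one extension step -/
noncomputable def nxt (H : Subgroup (Equiv.Perm Om.{u})) : Subgroup (Equiv.Perm Om.{u}) :=
  if h : Good H then (ext_good H h).choose else H

theorem nxt_good {H : Subgroup (Equiv.Perm Om.{u})} (h : Good H) : Good (nxt H) := by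
  unfold nxt
  rw [dif_pos h]
  exact (ext_good H h).choose_spec.1

theorem le_nxt {H : Subgroup (Equiv.Perm Om.{u})} (h : Good H) : H ≤ nxt H := by
  unfold nxt
  rw [dif_pos h]
  exact (ext_good H h).choose_spec.2.1

theorem nxt_solves {H : Subgroup (Equiv.Perm Om.{u})} (h : Good H) : Solves.{u} H (nxt H) := by
  unfold nxt
  rw [dif_pos h]
  exact (ext_good H h).choose_spec.2.2

theorem Solves.mono {G : Type v} [Group G] {H H' H'' : Subgroup G} (h : Solves.{u} H H')
    (hle : H' ≤ H'') : Solves.{u} H H'' := by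
  intro F _ a b ha hb haH hbH
  obtain ⟨c, hc, h1⟩ := h F a b ha hb haH hbH
  exact ⟨c, hle hc, h1⟩

variable (ι : Type u) [LinearOrder ι] [WellFoundedLT ι]

/-- the chain -/
noncomputable def lev : ι → Subgroup (Equiv.Perm Om.{u}) :=
  WellFoundedLT.fix (fun α IH => ⨆ β : {β : ι // β < α}, nxt (IH β.1 β.2))

theorem lev_eq (α : ι) : lev ι α = ⨆ β : {β : ι // β < α}, nxt (lev ι β.1) := by
  unfold lev
  rw [WellFoundedLT.fix_eq]

theorem nxt_le_lev {α β : ι} (h : α < β) : nxt (lev ι α) ≤ lev ι β := by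
  rw [lev_eq ι β]
  exact le_iSup (fun γ : {γ : ι // γ < β} => nxt (lev ι γ.1)) ⟨α, h⟩

theorem lev_good (α : ι) : Good (lev ι α) := by
  induction α using WellFoundedLT.induction with
  | _ α ih =>
    rcases isEmpty_or_nonempty {β : ι // β < α} with hemp | hne
    · rw [lev_eq, iSup_of_empty]
      refine ⟨inferInstance, ?_⟩
      intro h hh x _
      exact Subgroup.mem_bot.1 hh
    · have hdir : Directed (· ≤ ·) (fun β : {β : ι // β < α} => nxt (lev ι β.1)) := by
        have hmono : ∀ β γ : {β : ι // β < α}, β ≤ γ → nxt (lev ι β.1) ≤ nxt (lev ι γ.1) := by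
          intro β γ hβγ
          rcases hβγ.eq_or_lt with rfl | hlt
          · exact le_rfl
          · exact (nxt_le_lev ι hlt).trans (le_nxt (ih γ.1 γ.2))
        intro β γ
        rcases le_total β γ with h | h
        · exact ⟨γ, hmono _ _ h, le_rfl⟩
        · exact ⟨β, le_rfl, hmono _ _ h⟩
      have hmem : ∀ g, g ∈ lev ι α ↔ ∃ β : {β : ι // β < α}, g ∈ nxt (lev ι β.1) := by
        intro g
        rw [lev_eq]
        exact Subgroup.mem_iSup_of_directed hdir
      refine ⟨?_, ?_⟩
      · have : ∀ β : {β : ι // β < α}, Small.{u} (nxt (lev ι β.1)) :=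
          fun β => (nxt_good (ih β.1 β.2)).1
        let f : (Σ β : {β : ι // β < α}, nxt (lev ι β.1)) → lev ι α :=
          fun p => ⟨p.2.1, (hmem _).2 ⟨p.1, p.2.2⟩⟩
        refine small_of_surjective (f := f) ?_
        rintro ⟨g, hg⟩
        obtain ⟨β, hβ⟩ := (hmem g).1 hg
        exact ⟨⟨β, ⟨g, hβ⟩⟩, rfl⟩
      · intro g hg x hx
        obtain ⟨β, hβ⟩ := (hmem g).1 hg
        exact (nxt_good (ih β.1 β.2)).2 g hβ x hx

theorem lev_solves {α β : ι} (h : α < β) : Solves.{u} (lev ι α) (lev ι β) :=
  (nxt_solves (lev_good ι α)).mono (nxt_le_lev ι h)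

theorem lev_mono : Monotone (lev ι) := by
  intro α β h
  rcases h.eq_or_lt with rfl | hlt
  · exact le_rfl
  · exact (le_nxt (lev_good ι α)).trans (nxt_le_lev ι hlt)

end Pool.Agent.Helper999.UN
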