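import Mathlib
import Pool.Agent.Helper999.FreeSeq
import Pool.Agent.Helper999.UN.Ext

set_option autoImplicit false

/-!
A group with a long chain of subgroups solving conjugation problems is not a union of few
cosets of proper subgroups.
-/

namespace Pool.Agent.Helper999.UN

open Pool.Agent.Helper999

open Cardinal

universe u

theorem exists_rec {I : Type*} [LinearOrder I] [WellFoundedLT I] {X : Type*}
    (Q : (i : I) → ((j : I) → j < i → X) → X → Prop) (h : ∀ i IH, ∃ x, Q i IH x) :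
    ∃ f : I → X, ∀ i, Q i (fun j _ => f j) (f i) := by
  refine ⟨WellFoundedLT.fix (fun i IH => (h i IH).choose), ?_⟩
  intro i
  conv => arg 3; rw [WellFoundedLT.fix_eq]
  exact (h i _).choose_spec

theorem freeOver_of_red {G : Type*} [Group G] {H E : Subgroup G} {A B : Subgroup G} {c : G}
    (hE : E ≤ H) (hA : ∀ g ∈ E, g ∈ A → g = 1) (hB : ∀ g ∈ E, g ∈ B → g = 1)
    (hw : ∀ w : List (ℤˣ × G), w ≠ [] → (∀ p ∈ w, p.2 ∈ H) → Red A B w → wprod c w ∉ H) :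
    FreeOver E c := by
  intro w hw0 hwE hc hmem
  refine hw w hw0 (fun p hp => hE (hwE p hp)) ?_ (hE hmem)
  unfold Red
  refine List.IsChain.imp_of_mem_imp ?_ hc
  intro p q hp hq h2 h3
  apply h2
  unfold HNNExtension.toSubgroup at h3
  split_ifs at h3
  · exact hA _ (hwE p hp) h3
  · exact hB _ (hwE p hp) h3

section

variable {Γ : Type u} [Group Γ] {ι : Type u} [LinearOrder ι] (L : ι → Subgroup Γ)

theorem exists_freeOver (hsol : ∀ α β, α < β → Solves.{u} (L α) (L β))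
    (hmax : ∀ α : ι, ∃ β, α < β) (α : ι) : ∃ c, FreeOver (L α) c := by
  obtain ⟨β, hβ⟩ := hmax α
  obtain ⟨c, -, -, hw⟩ := hsol α β hβ PUnit.{u+1} (1 : PUnit.{u+1} →* Γ) (1 : PUnit.{u+1} →* Γ)
    (fun _ _ _ => rfl) (fun _ _ _ => rfl) (fun _ => (L α).one_mem) (fun _ => (L α).one_mem)
  refine ⟨c, freeOver_of_red le_rfl ?_ ?_ hw⟩
  · rintro g - ⟨x, rfl⟩; rfl
  · rintro g - ⟨x, rfl⟩; rfl

theorem exists_freeOver_not_mem (hmono : Monotone L) (hall : ∀ g, ∃ α, g ∈ L α)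
    (hsol : ∀ α β, α < β → Solves.{u} (L α) (L β))
    (hmax : ∀ α : ι, ∃ β, α < β) (α : ι) (S : Subgroup Γ) (hS : S ≠ ⊤) :
    ∃ c, FreeOver (L α) c ∧ c ∉ S := by
  obtain ⟨y, hy⟩ : ∃ y, y ∉ S := by
    by_contra hno
    push Not at hno
    exact hS ((Subgroup.eq_top_iff' S).2 hno)
  obtain ⟨β, hβ⟩ := hall y
  obtain ⟨c, hc⟩ := exists_freeOver L hsol hmax (max α β)
  by_cases h : c ∈ S
  · refine ⟨y * c, (hc.mul_left (hmono (le_max_right α β) hβ)).anti (hmono (le_max_left α β)), ?_⟩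
    intro h'
    exact hy ((S.mul_mem_cancel_right h).1 h')
  · exact ⟨c, hc.anti (hmono (le_max_left α β)), h⟩

theorem cover (κ : Cardinal.{u}) (hmono : Monotone L) (hall : ∀ g, ∃ α, g ∈ L α)
    (hsol : ∀ α β, α < β → Solves.{u} (L α) (L β)) (hmax : ∀ α : ι, ∃ β, α < β)
    (hbdd : ∀ (I : Type u), #I < κ → ∀ f : I → ι, ∃ β, ∀ i, f i ≤ β)
    (I : Type u) (hI : #I < κ) (S : I → Subgroup Γ) (a : I → Γ) (hS : ∀ i, S i ≠ ⊤) :
    ∃ c, ∀ i, (a i)⁻¹ * c ∉ S i := by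
  classical
  obtain ⟨αm, -⟩ := hall 1
  let T0 : I → Prop := fun i => ∃ α, ∀ g ∈ S i, ¬ FreeOver (L α) g
  -- witnesses for T0
  have hα1 : ∃ α1 : I → ι, ∀ i, T0 i → ∀ g ∈ S i, ¬ FreeOver (L (α1 i)) g := by
    have : ∀ i, ∃ α, T0 i → ∀ g ∈ S i, ¬ FreeOver (L α) g := by
      intro i
      by_cases h : T0 i
      · obtain ⟨α, hα⟩ := h
        exact ⟨α, fun _ => hα⟩
      · exact ⟨αm, fun h' => absurd h' h⟩
    choose α1 h using this
    exact ⟨α1, h⟩
  obtain ⟨α1, hα1⟩ := hα1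
  choose la hla using fun i => hall (a i)
  obtain ⟨β1, hβ1⟩ := hbdd I hI α1
  obtain ⟨β2, hβ2⟩ := hbdd I hI la
  obtain ⟨α0, hα0⟩ : ∃ α0, α0 = max β1 β2 := ⟨_, rfl⟩
  have hα01 : ∀ i, α1 i ≤ α0 := fun i => (hβ1 i).trans (hα0 ▸ le_max_left _ _)
  have hα0a : ∀ i, a i ∈ L α0 := fun i => hmono ((hβ2 i).trans (hα0 ▸ le_max_right _ _)) (hla i)
  -- pairs
  have hpair : ∀ i α, ∃ p : Γ × Γ, FreeOver (L α) p.1 ∧ FreeOver (L α) p.2 ∧
      (¬ T0 i → p.1 ∈ S i ∧ p.2 ∉ S i) := by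
    intro i α
    obtain ⟨k, hk, hkS⟩ := exists_freeOver_not_mem L hmono hall hsol hmax α (S i) (hS i)
    by_cases h : T0 i
    · exact ⟨(k, k), hk, hk, fun h' => absurd h h'⟩
    · simp only [T0, not_exists, not_forall, not_not] at h
      obtain ⟨g, hg, hgf⟩ := h α
      exact ⟨(g, k), hgf, hk, fun _ => ⟨hg, hkS⟩⟩
  -- recursion
  obtain ⟨_, _⟩ := exists_wellFoundedLT I
  obtain ⟨f, hf⟩ : ∃ f : I → (Γ × Γ) × ι, ∀ i,
      (α0 ≤ (f i).2 ∧ (∀ j, j < i → (f j).1.1 ∈ L (f i).2 ∧ (f j).1.2 ∈ L (f i).2)) ∧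
      FreeOver (L (f i).2) (f i).1.1 ∧ FreeOver (L (f i).2) (f i).1.2 ∧
      (¬ T0 i → (f i).1.1 ∈ S i ∧ (f i).1.2 ∉ S i) := by
    refine exists_rec (fun i (IH : (j : I) → j < i → (Γ × Γ) × ι) (x : (Γ × Γ) × ι) =>
      (α0 ≤ x.2 ∧ (∀ j (hj : j < i), (IH j hj).1.1 ∈ L x.2 ∧ (IH j hj).1.2 ∈ L x.2)) ∧
      FreeOver (L x.2) x.1.1 ∧ FreeOver (L x.2) x.1.2 ∧
      (¬ T0 i → x.1.1 ∈ S i ∧ x.1.2 ∉ S i)) ?_
    intro i IH
    have hcard : #{j : I // j < i} < κ := (Cardinal.mk_subtype_le _).trans_lt hI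
    choose l1 hl1 using fun j : {j : I // j < i} => hall (IH j.1 j.2).1.1
    choose l2 hl2 using fun j : {j : I // j < i} => hall (IH j.1 j.2).1.2
    obtain ⟨γ1, hγ1⟩ := hbdd _ hcard l1
    obtain ⟨γ2, hγ2⟩ := hbdd _ hcard l2
    obtain ⟨p, hp⟩ := hpair i (max α0 (max γ1 γ2))
    refine ⟨(p, max α0 (max γ1 γ2)), ⟨le_max_left _ _, ?_⟩, hp⟩
    intro j hj
    refine ⟨hmono ((hγ1 ⟨j, hj⟩).trans ?_) (hl1 ⟨j, hj⟩), hmono ((hγ2 ⟨j, hj⟩).trans ?_) (hl2 ⟨j, hj⟩)⟩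
    · exact (le_max_left _ _).trans (le_max_right _ _)
    · exact (le_max_right _ _).trans (le_max_right _ _)
  let h : I → Γ := fun i => (f i).1.1
  let k : I → Γ := fun i => (f i).1.2
  let s : I → ι := fun i => (f i).2
  -- choice of z
  have hz : ∀ i, ∃ z : Γ, (z = h i ∨ z = k i) ∧
      (¬ T0 i → ∀ c, (a i)⁻¹ * c ∈ S i → c * z * c⁻¹ ≠ h i) := by
    intro i
    by_cases hT : T0 i
    · exact ⟨h i, Or.inl rfl, fun h' => absurd hT h'⟩
    · by_cases hc1 : ∀ c, (a i)⁻¹ * c ∈ S i → c * h i * c⁻¹ ≠ h i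
      · exact ⟨h i, Or.inl rfl, fun _ => hc1⟩
      · refine ⟨k i, Or.inr rfl, fun _ => ?_⟩
        push Not at hc1
        obtain ⟨c, hc, hceq⟩ := hc1
        intro c' hc' heq
        have hS1 : h i ∈ S i := ((hf i).2.2.2 hT).1
        have hS2 : k i ∉ S i := ((hf i).2.2.2 hT).2
        apply hS2
        have h1 : c'⁻¹ * c ∈ S i := by
          have := (S i).mul_mem ((S i).inv_mem hc') hc
          simpa [mul_assoc] using this
        have h2 : k i = (c'⁻¹ * c) * h i * (c'⁻¹ * c)⁻¹ := by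
          have h3 : c * h i * c⁻¹ = c' * k i * c'⁻¹ := by rw [hceq, heq]
          have h4 : c * h i = c' * k i * c'⁻¹ * c := by rw [← h3]; group
          calc k i = c'⁻¹ * (c' * k i * c'⁻¹ * c) * c⁻¹ * c' := by group
            _ = c'⁻¹ * (c * h i) * c⁻¹ * c' := by rw [h4]
            _ = (c'⁻¹ * c) * h i * (c'⁻¹ * c)⁻¹ := by group
        rw [h2]
        exact (S i).mul_mem ((S i).mul_mem h1 hS1) ((S i).inv_mem h1)
  choose z hz1 hz2 using hz
  have hzfree : ∀ j, FreeOver (L (s j)) (z j) := by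
    intro j
    rcases hz1 j with h' | h'
    · rw [h']; exact (hf j).2.1
    · rw [h']; exact (hf j).2.2.1
  have hhfree : ∀ j, FreeOver (L (s j)) (h j) := fun j => (hf j).2.1
  have hzmem : ∀ i j, i < j → z i ∈ L (s j) := by
    intro i j hij
    rcases hz1 i with h' | h'
    · rw [h']; exact ((hf j).1.2 i hij).1
    · rw [h']; exact ((hf j).1.2 i hij).2
  have hhmem : ∀ i j, i < j → h i ∈ L (s j) := fun i j hij => ((hf j).1.2 i hij).1
  have hle0 : ∀ j, L α0 ≤ L (s j) := fun j => hmono (hf j).1.1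
  -- a level containing everything
  choose lz hlz using fun i => hall (z i)
  choose lh hlh using fun i => hall (h i)
  obtain ⟨γ1, hγ1⟩ := hbdd _ hI lz
  obtain ⟨γ2, hγ2⟩ := hbdd _ hI lh
  obtain ⟨σ, hσ⟩ : ∃ σ, σ = max α0 (max γ1 γ2) := ⟨_, rfl⟩
  have hzσ : ∀ i, z i ∈ L σ := fun i => hmono ((hγ1 i).trans
    (hσ ▸ (le_max_left _ _).trans (le_max_right _ _))) (hlz i)
  have hhσ : ∀ i, h i ∈ L σ := fun i => hmono ((hγ2 i).trans
    (hσ ▸ (le_max_right _ _).trans (le_max_right _ _))) (hlh i)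
  have h0σ : α0 ≤ σ := hσ ▸ le_max_left _ _
  obtain ⟨σ', hσ'⟩ := hmax σ
  have hrange : ∀ (y : I → Γ), (∀ i, y i ∈ L σ) → ∀ w : FreeGroup I, FreeGroup.lift y w ∈ L σ := by
    intro y hy w
    have h1 : FreeGroup.lift y w ∈ (FreeGroup.lift y).range := ⟨w, rfl⟩
    rw [FreeGroup.range_lift_eq_closure] at h1
    exact (Subgroup.closure_le _).2 (by rintro _ ⟨i, rfl⟩; exact hy i) h1
  obtain ⟨c, -, hconj, hw⟩ := hsol σ σ' hσ' (FreeGroup I) (FreeGroup.lift z) (FreeGroup.lift h)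
    (free_seq_injective z (fun j => L (s j)) (L α0) hzfree hzmem hle0)
    (free_seq_injective h (fun j => L (s j)) (L α0) hhfree hhmem hle0)
    (hrange z hzσ) (hrange h hhσ)
  have hcfree : FreeOver (L α0) c := by
    refine freeOver_of_red (hmono h0σ) ?_ ?_ hw
    · rintro g hg ⟨w, rfl⟩
      rw [free_seq_lift z (fun j => L (s j)) (L α0) hzfree hzmem hle0 w hg, map_one]
    · rintro g hg ⟨w, rfl⟩
      rw [free_seq_lift h (fun j => L (s j)) (L α0) hhfree hhmem hle0 w hg, map_one]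
  refine ⟨c, ?_⟩
  intro i hmem
  by_cases hT : T0 i
  · refine hα1 i hT _ hmem ?_
    exact (hcfree.mul_left ((L α0).inv_mem (hα0a i))).anti (hmono (hα01 i))
  · refine hz2 i hT c hmem ?_
    have := hconj (FreeGroup.of i)
    simpa using this

theorem conj_sq (hall : ∀ g, ∃ α, g ∈ L α)
    (hsol : ∀ α β, α < β → Solves.{u} (L α) (L β)) (hmax : ∀ α : ι, ∃ β, α < β) (f : Γ) :
    (∃ n : ℕ, 0 < n ∧ f ^ n = 1) ∨ ∃ t, t * f * t⁻¹ = f ^ 2 := by
  by_cases hfin : IsOfFinOrder f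
  · left
    obtain ⟨n, hn, hn1⟩ := isOfFinOrder_iff_pow_eq_one.1 hfin
    exact ⟨n, hn, hn1⟩
  · right
    have h1 : Function.Injective (zpowersHom Γ f) := by
      intro x y hxy
      have := (injective_zpow_iff_not_isOfFinOrder.2 hfin) (a₁ := x.toAdd) (a₂ := y.toAdd)
        (by simpa [zpowersHom_apply] using hxy)
      exact Multiplicative.toAdd.injective this
    have hfin2 : ¬ IsOfFinOrder (f ^ 2) := by
      intro h
      exact hfin ((isOfFinOrder_pow (n := 2)).1 h |>.resolve_right (by norm_num))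
    have h2 : Function.Injective (zpowersHom Γ (f ^ 2)) := by
      intro x y hxy
      have := (injective_zpow_iff_not_isOfFinOrder.2 hfin2) (a₁ := x.toAdd) (a₂ := y.toAdd)
        (by simpa [zpowersHom_apply] using hxy)
      exact Multiplicative.toAdd.injective this
    obtain ⟨α, hα⟩ := hall f
    obtain ⟨β, hβ⟩ := hmax α
    have hz : ∀ (g : Γ), g ∈ L α → ∀ y : Multiplicative ℤ, zpowersHom Γ g y ∈ L α := by
      intro g hg y
      rw [zpowersHom_apply]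
      exact (L α).zpow_mem hg _
    obtain ⟨c, -, hc, -⟩ := hsol α β hβ (ULift.{u} (Multiplicative ℤ))
      ((zpowersHom Γ f).comp (MulEquiv.ulift.{0, u} (α := Multiplicative ℤ)).toMonoidHom)
      ((zpowersHom Γ (f ^ 2)).comp (MulEquiv.ulift.{0, u} (α := Multiplicative ℤ)).toMonoidHom)
      (h1.comp (MulEquiv.ulift.{0, u} (α := Multiplicative ℤ)).injective)
      (h2.comp (MulEquiv.ulift.{0, u} (α := Multiplicative ℤ)).injective)
      (fun x => hz f hα _)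
      (fun x => hz (f ^ 2) ((L α).pow_mem hα 2) _)
    refine ⟨c, ?_⟩
    have h3 : c * (zpowersHom Γ f) (Multiplicative.ofAdd 1) * c⁻¹ =
        (zpowersHom Γ (f ^ 2)) (Multiplicative.ofAdd 1) := hc (ULift.up (Multiplicative.ofAdd 1))
    simpa [zpowersHom_apply] using h3

theorem nontriv (hsol : ∀ α β, α < β → Solves.{u} (L α) (L β)) (hmax : ∀ α : ι, ∃ β, α < β)
    (α : ι) : Nontrivial Γ := by
  obtain ⟨c, hc⟩ := exists_freeOver L hsol hmax α
  exact ⟨c, 1, hc.ne_one⟩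

end

end Pool.Agent.Helper999.UN
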