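import Mathlib

set_option autoImplicit false

/-!
Basic connectivity and the non-existence of hyperbolic elements.
-/

namespace Pool.Agent.Helper999.UN

open Pool.Agent.Helper999

open Cardinal

universe u

section basic

variable {V : Type u} (X : SimpleGraph V)

/-- reachability inside a set of vertices -/
def Rch (S : Set V) (u v : V) : Prop :=
  Relation.ReflTransGen (fun a b => X.Adj a b ∧ a ∈ S ∧ b ∈ S) u v

/-- connected nonempty set of vertices -/
def Cn (M : Set V) : Prop := M.Nonempty ∧ ∀ u ∈ M, ∀ v ∈ M, Rch X M u v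

variable {X}

theorem Rch.refl {S : Set V} (u : V) : Rch X S u u := Relation.ReflTransGen.refl

theorem Rch.trans {S : Set V} {u v w : V} (h : Rch X S u v) (h' : Rch X S v w) : Rch X S u w :=
  Relation.ReflTransGen.trans h h'

theorem Rch.mono {S T : Set V} (hST : S ⊆ T) {u v : V} (h : Rch X S u v) : Rch X T u v := by
  induction h with
  | refl => exact Relation.ReflTransGen.refl
  | tail _ h ih => exact ih.tail ⟨h.1, hST h.2.1, hST h.2.2⟩

theorem Rch.symm {S : Set V} {u v : V} (h : Rch X S u v) : Rch X S v u := by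
  induction h with
  | refl => exact Relation.ReflTransGen.refl
  | tail _ h ih => exact Relation.ReflTransGen.head ⟨h.1.symm, h.2.2, h.2.1⟩ ih

theorem Rch.step {S : Set V} {u v w : V} (h : Rch X S u v) (hvw : X.Adj v w) (hv : v ∈ S)
    (hw : w ∈ S) : Rch X S u w :=
  Relation.ReflTransGen.tail h ⟨hvw, hv, hw⟩

theorem Rch.mem {S : Set V} {u v : V} (h : Rch X S u v) (hu : u ∈ S) : v ∈ S := by
  induction h with
  | refl => exact hu
  | tail _ h _ => exact h.2.2

/-- a set closed under adjacency outside the complement absorbs reachability -/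
theorem Rch.within {S D : Set V} (hcl : ∀ a ∈ D, ∀ b, X.Adj a b → b ∈ S → b ∈ D) {u v : V}
    (h : Rch X S u v) (hu : u ∈ D) : Rch X D u v ∧ v ∈ D := by
  induction h with
  | refl => exact ⟨Rch.refl _, hu⟩
  | tail _ h ih => exact ⟨ih.1.step h.1 ih.2 (hcl _ ih.2 _ h.1 h.2.2), hcl _ ih.2 _ h.1 h.2.2⟩

theorem Rch.exists_finite {S : Set V} {u v : V} (h : Rch X S u v) (hu : u ∈ S) :
    ∃ P : Set V, P.Finite ∧ P ⊆ S ∧ v ∈ P ∧ u ∈ P ∧ ∀ x ∈ P, Rch X P u x := by
  induction h with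
  | refl => exact ⟨{u}, Set.finite_singleton u, by simpa using hu, rfl, rfl,
      fun x hx => by rw [Set.mem_singleton_iff.1 hx]; exact Rch.refl _⟩
  | @tail b c _ h ih =>
    obtain ⟨P, hPf, hPS, hbP, huP, hP⟩ := ih
    refine ⟨insert c P, hPf.insert c, Set.insert_subset h.2.2 hPS, Set.mem_insert _ _,
      Set.mem_insert_of_mem _ huP, ?_⟩
    have hsub : P ⊆ insert c P := Set.subset_insert _ _
    rintro x (rfl | hx)
    · exact ((hP b hbP).mono hsub).step h.1 (hsub hbP) (Set.mem_insert _ _)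
    · exact (hP x hx).mono hsub

theorem Cn.exists_small {κ : Cardinal.{u}} (hκ : κ.IsRegular) {D S : Set V} (hD : Cn X D)
    (hSD : S ⊆ D) (hS : #S < κ) : ∃ M : Set V, S ⊆ M ∧ M ⊆ D ∧ Cn X M ∧ #M < κ := by
  obtain ⟨x0, hx0⟩ := hD.1
  have h1 : ∀ s : S, ∃ P : Set V, P.Finite ∧ P ⊆ D ∧ s.1 ∈ P ∧ x0 ∈ P ∧ ∀ x ∈ P, Rch X P x0 x :=
    fun s => (hD.2 x0 hx0 s.1 (hSD s.2)).exists_finite hx0
  choose P hPf hPD hsP hx0P hP using h1
  refine ⟨insert x0 (⋃ s, P s), ?_, ?_, ?_, ?_⟩
  · intro s hs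
    exact Set.mem_insert_of_mem _ (Set.mem_iUnion.2 ⟨⟨s, hs⟩, hsP ⟨s, hs⟩⟩)
  · exact Set.insert_subset hx0 (Set.iUnion_subset hPD)
  · have hreach : ∀ x ∈ insert x0 (⋃ s, P s), Rch X (insert x0 (⋃ s, P s)) x0 x := by
      rintro x (rfl | hx)
      · exact Rch.refl _
      · obtain ⟨s, hs⟩ := Set.mem_iUnion.1 hx
        exact (hP s x hs).mono ((Set.subset_iUnion P s).trans (Set.subset_insert _ _))
    exact ⟨⟨x0, Set.mem_insert _ _⟩, fun u hu v hv => (hreach u hu).symm.trans (hreach v hv)⟩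
  · have h2 : #(⋃ s, P s : Set V) < κ := by
      rw [Cardinal.card_iUnion_lt_iff_forall_of_isRegular hκ hS]
      intro s
      exact (Cardinal.lt_aleph0_iff_set_finite.2 (hPf s)).trans_le hκ.aleph0_le
    refine (Cardinal.mk_insert_le).trans_lt ?_
    exact Cardinal.add_lt_of_lt hκ.aleph0_le h2 (Cardinal.one_lt_aleph0.trans_le hκ.aleph0_le)

/-- existence of a walk of a given length -/
def Pth (X : SimpleGraph V) : ℕ → V → V → Prop
  | 0, u, v => u = v
  | (n + 1), u, v => ∃ w, X.Adj u w ∧ Pth X n w v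

theorem Pth.trans {m n : ℕ} {u v w : V} (h : Pth X m u v) (h' : Pth X n v w) :
    Pth X (m + n) u w := by
  induction m generalizing u with
  | zero =>
    rw [zero_add]
    have : u = v := h
    rw [this]
    exact h'
  | succ m ih =>
    obtain ⟨x, hx, hx'⟩ := h
    rw [Nat.succ_add]
    exact ⟨x, hx, ih hx'⟩

theorem Pth.symm {n : ℕ} {u v : V} (h : Pth X n u v) : Pth X n v u := by
  induction n generalizing u with
  | zero => exact Eq.symm h
  | succ n ih =>
    obtain ⟨x, hx, hx'⟩ := h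
    exact (ih hx').trans (n := 1) ⟨u, hx.symm, rfl⟩

theorem Rch.exists_pth {S : Set V} {u v : V} (h : Rch X S u v) : ∃ n, Pth X n u v := by
  induction h with
  | refl => exact ⟨0, rfl⟩
  | @tail b c _ h ih =>
    obtain ⟨n, hn⟩ := ih
    exact ⟨n + 1, hn.trans (n := 1) ⟨c, h.1, rfl⟩⟩

end basic

section action

variable {V : Type u} {X : SimpleGraph V} {A : Type u} [Group A] [MulAction A V]

theorem Pth.smul (hA : ∀ (g : A) (u v : V), X.Adj u v → X.Adj (g • u) (g • v)) (g : A)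
    {n : ℕ} {u v : V} (h : Pth X n u v) : Pth X n (g • u) (g • v) := by
  induction n generalizing u with
  | zero =>
    have : u = v := h
    rw [this]
    exact rfl
  | succ n ih =>
    obtain ⟨x, hx, hx'⟩ := h
    exact ⟨g • x, hA g _ _ hx, ih hx'⟩

theorem Rch.smul (hA : ∀ (g : A) (u v : V), X.Adj u v → X.Adj (g • u) (g • v)) (g : A)
    {S T : Set V} (hST : ∀ x ∈ S, g • x ∈ T) {u v : V} (h : Rch X S u v) :
    Rch X T (g • u) (g • v) := by
  induction h with
  | refl => exact Rch.refl _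
  | tail _ h ih => exact ih.step (hA g _ _ h.1) (hST _ h.2.1) (hST _ h.2.2)

theorem exists_big (C C' : ℕ) : ∃ k : ℕ, k * C + C' + k * C < 2 ^ k := by
  have h1 : ∀ k : ℕ, 4 ≤ k → k * k ≤ 2 ^ k := by
    intro k hk
    induction k, hk using Nat.le_induction with
    | base => norm_num
    | succ k hk ih =>
      rw [pow_succ]
      nlinarith
  refine ⟨2 * C + C' + 4, ?_⟩
  have h2 := h1 (2 * C + C' + 4) (by omega)
  refine lt_of_lt_of_le ?_ h2
  nlinarith [Nat.zero_le C, Nat.zero_le C', Nat.zero_le (C * C')]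

/-- There is no element moving `M ∪ D` into `D`, if `D` is a union of components of the
complement of `M`. -/
theorem no_hyperbolic (hA : ∀ (g : A) (u v : V), X.Adj u v → X.Adj (g • u) (g • v))
    (hX : Cn X Set.univ) (M D : Set V) (hM : M.Nonempty) (hMD : ∀ v ∈ D, v ∉ M)
    (hcl : ∀ a ∈ D, ∀ b, X.Adj a b → b ∉ M → b ∈ D) (f : A)
    (hf : ∀ v, v ∈ M ∨ v ∈ D → f • v ∈ D)
    (hsq : (∃ n : ℕ, 0 < n ∧ f ^ n = 1) ∨ ∃ t, t * f * t⁻¹ = f ^ 2) : False := by
  obtain ⟨x, hx⟩ := hM
  have hD0 : ∀ k : ℕ, ∀ v, (f ^ k)⁻¹ • v ∈ D → v ∈ D := by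
    intro k
    induction k with
    | zero => intro v hv; simpa using hv
    | succ k ih =>
      intro v hv
      apply ih
      have h1 := hf _ (Or.inr hv)
      rwa [pow_succ, mul_inv_rev, mul_smul, smul_inv_smul] at h1
  have hstep : ∀ (k : ℕ) (u v : V), X.Adj u v → (f ^ (k + 1))⁻¹ • v ∈ D → (f ^ k)⁻¹ • u ∈ D := by
    intro k u v huv hv
    have h1 : (f ^ (k + 1))⁻¹ • u ∈ M ∨ (f ^ (k + 1))⁻¹ • u ∈ D := by
      by_cases h : (f ^ (k + 1))⁻¹ • u ∈ M
      · exact Or.inl h
      · exact Or.inr (hcl _ hv _ (hA _ _ _ huv.symm) h)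
    have h2 := hf _ h1
    rwa [pow_succ, mul_inv_rev, mul_smul, smul_inv_smul] at h2
  have hwalk : ∀ (l k : ℕ) (u v : V), Pth X l u v → (f ^ (k + l))⁻¹ • v ∈ D →
      (f ^ k)⁻¹ • u ∈ D := by
    intro l
    induction l with
    | zero =>
      intro k u v h hv
      have : u = v := h
      rw [this]
      exact hv
    | succ l ih =>
      intro k u v h hv
      obtain ⟨w, hw, hw'⟩ := h
      exact hstep k u w hw (ih (k + 1) w v hw' (by rwa [show k + 1 + l = k + (l + 1) by omega]))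
  have hlong : ∀ (n l : ℕ), Pth X l x (f ^ n • x) → n ≤ l := by
    intro n l h
    by_contra hlt
    push Not at hlt
    obtain ⟨k, rfl⟩ : ∃ k, n = k + l + 1 := ⟨n - l - 1, by omega⟩
    have h1 : (f ^ (k + l))⁻¹ • (f ^ (k + l + 1) • x) ∈ D := by
      rw [pow_succ, mul_smul, inv_smul_smul]
      exact hf x (Or.inl hx)
    exact hMD x (hD0 k x (hwalk l k x _ h h1)) hx
  rcases hsq with ⟨n, hn, hfn⟩ | ⟨t, ht⟩
  · have := hlong n 0 (by rw [hfn, one_smul]; rfl)
    omega
  · obtain ⟨C, hC⟩ := (hX.2 x trivial (t • x) trivial).exists_pth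
    obtain ⟨C', hC'⟩ := (hX.2 x trivial (f • x) trivial).exists_pth
    have htk : ∀ k : ℕ, Pth X (k * C) x (t ^ k • x) := by
      intro k
      induction k with
      | zero => rw [pow_zero, one_smul, zero_mul]; rfl
      | succ k ih =>
        rw [Nat.succ_mul, pow_succ, mul_smul]
        exact ih.trans (hC.smul hA (t ^ k))
    have hconj : ∀ k : ℕ, t ^ k * f * (t ^ k)⁻¹ = f ^ (2 ^ k) := by
      intro k
      induction k with
      | zero => simp
      | succ k ih =>
        have h1 : t ^ (k + 1) * f * (t ^ (k + 1))⁻¹ = t * (t ^ k * f * (t ^ k)⁻¹) * t⁻¹ := by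
          rw [pow_succ']; group
        rw [h1, ih, ← conj_pow, ht, ← pow_mul, pow_succ, mul_comm]
    obtain ⟨k, hk⟩ := exists_big C C'
    have h1 : Pth X (k * C + C' + k * C) x (f ^ (2 ^ k) • x) := by
      rw [← hconj k, mul_smul, mul_smul]
      refine ((htk k).trans (hC'.smul hA (t ^ k))).trans ?_
      rw [← mul_smul, ← mul_smul]
      refine Pth.smul hA _ ?_
      have h2 := ((htk k).smul hA (t ^ k)⁻¹).symm
      rwa [inv_smul_smul] at h2
    exact absurd (hlong _ _ h1) (not_le.2 hk)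

end action

end Pool.Agent.Helper999.UN
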