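import Mathlib
import Pool.Agent.Helper999.UN.Chain
import Pool.Agent.Helper999.UN.Cover

set_option autoImplicit false

/-!
The group used in the proof.
-/

namespace Pool.Agent.Helper999.UN

open Pool.Agent.Helper999

open Cardinal

universe u

/-- The properties of the group: it is not a union of fewer than `κ` left cosets of proper
subgroups, and every element of infinite order is conjugate to its square. -/
structure Nice (κ : Cardinal.{u}) (Γ : Type u) [Group Γ] : Prop where
  cover : ∀ (I : Type u), #I < κ → ∀ (S : I → Subgroup Γ) (a : I → Γ), (∀ i, S i ≠ ⊤) →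
    ∃ c, ∀ i, (a i)⁻¹ * c ∉ S i
  sq : ∀ f : Γ, (∃ n : ℕ, 0 < n ∧ f ^ n = 1) ∨ ∃ t, t * f * t⁻¹ = f ^ 2
  nontriv : Nontrivial Γ

theorem exists_nice (κ : Cardinal.{u}) (hκ : κ.IsRegular) :
    ∃ (Γ : Type u) (_ : Group Γ), Nice κ Γ := by
  let ι := κ.ord.ToType
  have hcof : Order.cof ι = κ := by
    rw [Ordinal.cof_toType, hκ.cof_ord]
  have hbdd' : ∀ (I : Type u), #I < κ → ∀ f : I → ι, ∃ β, ∀ i, f i < β := by
    intro I hI f
    have h1 : ¬ IsCofinal (Set.range f) := by
      intro h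
      have h2 := Order.cof_le h
      rw [hcof] at h2
      exact absurd (h2.trans Cardinal.mk_range_le) (not_le.2 hI)
    obtain ⟨x, hx⟩ := not_isCofinal_iff.1 h1
    exact ⟨x, fun i => hx _ ⟨i, rfl⟩⟩
  have hbdd : ∀ (I : Type u), #I < κ → ∀ f : I → ι, ∃ β, ∀ i, f i ≤ β := by
    intro I hI f
    obtain ⟨β, hβ⟩ := hbdd' I hI f
    exact ⟨β, fun i => (hβ i).le⟩
  have hmax : ∀ α : ι, ∃ β, α < β := by
    intro α
    have h1 : #PUnit < κ := by
      rw [Cardinal.mk_fintype]
      exact hκ.nat_lt _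
    obtain ⟨β, hβ⟩ := hbdd' PUnit h1 (fun _ => α)
    exact ⟨β, hβ PUnit.unit⟩
  have hne : Nonempty ι := by
    have h1 : #PEmpty < κ := by
      rw [Cardinal.mk_fintype]
      exact hκ.nat_lt _
    obtain ⟨β, -⟩ := hbdd' PEmpty h1 (fun x => x.elim)
    exact ⟨β⟩
  have hmono := lev_mono ι
  have hdir : Directed (· ≤ ·) (lev ι) := hmono.directed_le
  let G : Subgroup (Equiv.Perm Om) := ⨆ α, lev ι α
  have hmem : ∀ g, g ∈ G ↔ ∃ α, g ∈ lev ι α := fun g => Subgroup.mem_iSup_of_directed hdir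
  have hsmall : Small.{u} G := by
    have : ∀ β : ι, Small.{u} (lev ι β) := fun β => (lev_good ι β).1
    let f : (Σ β : ι, lev ι β) → G := fun p => ⟨p.2.1, (hmem _).2 ⟨p.1, p.2.2⟩⟩
    refine small_of_surjective (f := f) ?_
    rintro ⟨g, hg⟩
    obtain ⟨β, hβ⟩ := (hmem g).1 hg
    exact ⟨⟨β, ⟨g, hβ⟩⟩, rfl⟩
  let Γ := Shrink.{u} G
  let ε : Γ ≃* G := Shrink.mulEquiv
  let j : Γ →* Equiv.Perm Om := G.subtype.comp ε.toMonoidHom
  have hj : Function.Injective j := Subtype.val_injective.comp ε.injective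
  have hjr : j.range = G := by
    ext g
    constructor
    · rintro ⟨x, rfl⟩
      exact (ε x).2
    · intro hg
      refine ⟨ε.symm ⟨g, hg⟩, ?_⟩
      simp [j]
  let L : ι → Subgroup Γ := fun α => (lev ι α).comap j
  have hLmono : Monotone L := fun α β h => Subgroup.comap_mono (hmono h)
  have hLall : ∀ g, ∃ α, g ∈ L α := by
    intro g
    have h1 : j g ∈ j.range := ⟨g, rfl⟩
    rw [hjr] at h1
    exact (hmem _).1 h1
  have hLsol : ∀ α β, α < β → Solves.{u} (L α) (L β) := by
    intro α β h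
    refine (lev_solves ι h).comap j hj ?_
    rw [hjr]
    exact le_iSup (lev ι) β
  refine ⟨Γ, inferInstance, ?_, ?_, ?_⟩
  · exact fun I hI S a hS => Pool.Agent.Helper999.UN.cover L κ hLmono hLall hLsol hmax hbdd I hI S a hS
  · exact fun f => conj_sq L hLall hLsol hmax f
  · exact Pool.Agent.Helper999.UN.nontriv L hLsol hmax hne.some

theorem Nice.of_mulEquiv {κ : Cardinal.{u}} {Γ Γ' : Type u} [Group Γ] [Group Γ'] (h : Nice κ Γ)
    (e : Γ ≃* Γ') : Nice κ Γ' := by
  refine ⟨?_, ?_, ?_⟩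
  · intro I hI S a hS
    obtain ⟨c, hc⟩ := h.cover I hI (fun i => (S i).comap e.toMonoidHom) (fun i => e.symm (a i)) (by
      intro i htop
      apply hS i
      rw [Subgroup.eq_top_iff'] at htop ⊢
      intro x
      have := htop (e.symm x)
      simpa using this)
    refine ⟨e c, ?_⟩
    intro i hi
    apply hc i
    simpa using hi
  · intro f
    rcases h.sq (e.symm f) with ⟨n, hn, hfn⟩ | ⟨t, ht⟩
    · left
      refine ⟨n, hn, ?_⟩
      have := congrArg e hfn
      simpa using this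
    · right
      refine ⟨e t, ?_⟩
      have := congrArg e ht
      simpa using this
  · have := h.nontriv
    exact e.symm.toEquiv.nontrivial

end Pool.Agent.Helper999.UN
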