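import Mathlib
import Pool.Agent.Helper999.UN.GraphA
import Pool.Agent.Helper999.UN.TheGroup

set_option autoImplicit false

/-!
A nice group acting without fixed vertex on a connected graph forces a large clique minor.
-/

namespace Pool.Agent.Helper999.UN

open Pool.Agent.Helper999

open Cardinal

universe u

variable {V : Type u} {X : SimpleGraph V} {A : Type u} [Group A] [MulAction A V]

/-- `g` moves `M` off itself -/
def Off (M : Set V) (g : A) : Prop := ∀ x ∈ M, g • x ∉ M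

theorem Off.inv {M : Set V} {g : A} (h : Off M g) : Off M g⁻¹ := by
  intro x hx hx'
  apply h _ hx'
  rwa [smul_inv_smul]

theorem exists_off {κ : Cardinal.{u}} (hκ : κ.IsRegular) (hN : Nice κ A)
    (hfix : ∀ v : V, ∃ g : A, g • v ≠ v) (M : Set V) (hM : #M < κ) : ∃ g : A, Off M g := by
  let I := {p : M × M // ∃ g : A, g • (p.1 : V) = p.2}
  have hI : #I < κ := by
    refine (Cardinal.mk_subtype_le _).trans_lt ?_
    rw [Cardinal.mk_prod, Cardinal.lift_id]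
    exact Cardinal.mul_lt_of_lt hκ.aleph0_le hM hM
  choose a ha using fun p : I => p.2
  obtain ⟨c, hc⟩ := hN.cover I hI (fun p => MulAction.stabilizer A (p.1.1 : V)) a (by
    intro p htop
    obtain ⟨g, hg⟩ := hfix p.1.1
    apply hg
    have : g ∈ MulAction.stabilizer A (p.1.1 : V) := by rw [htop]; trivial
    exact this)
  refine ⟨c, ?_⟩
  intro x hx hcx
  apply hc ⟨(⟨x, hx⟩, ⟨c • x, hcx⟩), c, rfl⟩
  rw [MulAction.mem_stabilizer_iff, mul_smul, inv_smul_eq_iff]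
  exact (ha ⟨(⟨x, hx⟩, ⟨c • x, hcx⟩), c, rfl⟩).symm

/-- the part of the complement of `M` reachable from `g • M` -/
def Dg (X : SimpleGraph V) (M : Set V) (g : A) : Set V := {v | ∃ x ∈ M, Rch X Mᶜ (g • x) v}

theorem Dg_sub {M : Set V} {g : A} (hg : Off M g) {v : V} (hv : v ∈ Dg X M g) : v ∉ M := by
  obtain ⟨x, hx, h⟩ := hv
  exact h.mem (hg x hx)

theorem Dg_cl {M : Set V} {g : A} (hg : Off M g) {a b : V} (ha : a ∈ Dg X M g) (hab : X.Adj a b)
    (hb : b ∉ M) : b ∈ Dg X M g := by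
  have ha' := Dg_sub hg ha
  obtain ⟨x, hx, h⟩ := ha
  exact ⟨x, hx, h.step hab ha' hb⟩

theorem mem_Dg {M : Set V} {g : A} {x : V} (hx : x ∈ M) : g • x ∈ Dg X M g :=
  ⟨x, hx, Rch.refl _⟩

theorem Dg_conn (hA : ∀ (g : A) (u v : V), X.Adj u v → X.Adj (g • u) (g • v))
    {M : Set V} (hM : Cn X M) {g : A} (hg : Off M g) {u v : V} (hu : u ∈ Dg X M g)
    (hv : v ∈ Dg X M g) : Rch X Mᶜ u v := by
  obtain ⟨x, hx, h⟩ := hu
  obtain ⟨y, hy, h'⟩ := hv
  exact (h.symm.trans ((hM.2 x hx y hy).smul (T := Mᶜ) hA g hg)).trans h'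

theorem Dg_conn' (hA : ∀ (g : A) (u v : V), X.Adj u v → X.Adj (g • u) (g • v))
    {M : Set V} (hM : Cn X M) {g : A} (hg : Off M g) : Cn X (Dg X M g) := by
  obtain ⟨x, hx⟩ := hM.1
  refine ⟨⟨g • x, mem_Dg hx⟩, ?_⟩
  intro u hu v hv
  exact ((Dg_conn hA hM hg hu hv).within (fun a ha b hab hb => Dg_cl hg ha hab hb) hu).1

theorem star (hA : ∀ (g : A) (u v : V), X.Adj u v → X.Adj (g • u) (g • v))
    (hX : Cn X Set.univ) {M : Set V} (hM : M.Nonempty) {g : A} (hg : Off M g) (v : V)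
    (hv : v ∉ Dg X M g⁻¹) : g • v ∈ Dg X M g := by
  obtain ⟨x, hx⟩ := hM
  have h := hX.2 x trivial v trivial
  revert hv
  induction h with
  | refl => intro _; exact mem_Dg hx
  | @tail a b _ hab ih =>
    intro hb
    have hgb : g • b ∉ M := by
      intro h
      apply hb
      have := mem_Dg (X := X) (g := g⁻¹) h
      rwa [inv_smul_smul] at this
    by_cases ha : a ∈ Dg X M g⁻¹
    · have hbM : b ∈ M := by
        by_contra hbM
        exact hb (Dg_cl hg.inv ha hab.1 hbM)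
      exact mem_Dg hbM
    · exact Dg_cl hg (ih ha) (hA g _ _ hab.1) hgb

theorem Dg_eq_of_inter (hA : ∀ (g : A) (u v : V), X.Adj u v → X.Adj (g • u) (g • v))
    {M : Set V} (hM : Cn X M) {g h : A} (hg : Off M g) (hh : Off M h)
    (hv : ∃ v, v ∈ Dg X M g ∧ v ∈ Dg X M h) : Dg X M g = Dg X M h := by
  obtain ⟨v, hvg, hvh⟩ := hv
  ext w
  constructor
  · intro hw
    obtain ⟨y, hy, h2⟩ := hvh
    exact ⟨y, hy, h2.trans (Dg_conn hA hM hg hvg hw)⟩
  · intro hw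
    obtain ⟨y, hy, h2⟩ := hvg
    exact ⟨y, hy, h2.trans (Dg_conn hA hM hh hvh hw)⟩

theorem Dg_eq_inv {κ : Cardinal.{u}} (hN : Nice κ A)
    (hA : ∀ (g : A) (u v : V), X.Adj u v → X.Adj (g • u) (g • v))
    (hX : Cn X Set.univ) {M : Set V} (hM : Cn X M) {g : A} (hg : Off M g) :
    Dg X M g = Dg X M g⁻¹ := by
  apply Dg_eq_of_inter hA hM hg hg.inv
  by_contra hno
  push Not at hno
  refine no_hyperbolic hA hX M (Dg X M g) hM.1 (fun v hv => Dg_sub hg hv)
    (fun a ha b hab hb => Dg_cl hg ha hab hb) g ?_ (hN.sq g)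
  rintro v (hv | hv)
  · exact mem_Dg hv
  · exact star hA hX hM.1 hg v (hno v hv)

theorem Dg_eq {κ : Cardinal.{u}} (hN : Nice κ A)
    (hA : ∀ (g : A) (u v : V), X.Adj u v → X.Adj (g • u) (g • v))
    (hX : Cn X Set.univ) {M : Set V} (hM : Cn X M) {g h : A} (hg : Off M g) (hh : Off M h) :
    Dg X M g = Dg X M h := by
  apply Dg_eq_of_inter hA hM hg hh
  by_contra hno
  push Not at hno
  refine no_hyperbolic hA hX M (Dg X M g) hM.1 (fun v hv => Dg_sub hg hv)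
    (fun a ha b hab hb => Dg_cl hg ha hab hb) (g * h) ?_ (hN.sq (g * h))
  intro v hv
  rw [mul_smul]
  have h1 : v ∉ Dg X M h⁻¹ := by
    rw [← Dg_eq_inv hN hA hX hM hh]
    rcases hv with hv | hv
    · exact fun h' => Dg_sub hh h' hv
    · exact hno v hv
  have h2 : h • v ∈ Dg X M h := star hA hX hM.1 hh v h1
  have h3 : h • v ∉ Dg X M g⁻¹ := by
    rw [← Dg_eq_inv hN hA hX hM hg]
    exact fun h' => hno _ h' h2
  exact star hA hX hM.1 hg _ h3

/-- the main component of the complement of `M` -/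
def DD (X : SimpleGraph V) (A : Type u) [Group A] [MulAction A V] (M : Set V) : Set V :=
  {v | ∃ g : A, Off M g ∧ v ∈ Dg X M g}

theorem DD_eq {κ : Cardinal.{u}} (hN : Nice κ A)
    (hA : ∀ (g : A) (u v : V), X.Adj u v → X.Adj (g • u) (g • v))
    (hX : Cn X Set.univ) {M : Set V} (hM : Cn X M) {g : A} (hg : Off M g) :
    DD X A M = Dg X M g := by
  ext v
  constructor
  · rintro ⟨h, hh, hv⟩
    rwa [Dg_eq hN hA hX hM hg hh]
  · intro hv
    exact ⟨g, hg, hv⟩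

theorem DD_anti {κ : Cardinal.{u}} (hκ : κ.IsRegular) (hN : Nice κ A)
    (hfix : ∀ v : V, ∃ g : A, g • v ≠ v)
    (hA : ∀ (g : A) (u v : V), X.Adj u v → X.Adj (g • u) (g • v))
    (hX : Cn X Set.univ) {M M' : Set V} (hM : Cn X M) (hM' : Cn X M') (hMM' : M ⊆ M')
    (hs : #M' < κ) : DD X A M' ⊆ DD X A M := by
  obtain ⟨g, hg⟩ := exists_off hκ hN hfix M' hs
  have hg' : Off M g := fun x hx h => hg x (hMM' hx) (hMM' h)
  rw [DD_eq hN hA hX hM' hg, DD_eq hN hA hX hM hg']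
  intro v hv
  obtain ⟨x, hx⟩ := hM.1
  exact ⟨x, hx, (Dg_conn hA hM' hg (mem_Dg (hMM' hx)) hv).mono (Set.compl_subset_compl.2 hMM')⟩

/-- a vertex attached to the main component of every small set containing it -/
def Gd (X : SimpleGraph V) (A : Type u) [Group A] [MulAction A V] (κ : Cardinal.{u}) (v : V) : Prop :=
  ∀ M : Set V, Cn X M → #M < κ → v ∈ M → ∃ d ∈ DD X A M, X.Adj v d

theorem exists_good {κ : Cardinal.{u}} (hκ : κ.IsRegular) (hκ0 : ℵ₀ < κ) (hN : Nice κ A)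
    (hfix : ∀ v : V, ∃ g : A, g • v ≠ v)
    (hA : ∀ (g : A) (u v : V), X.Adj u v → X.Adj (g • u) (g • v))
    (hX : Cn X Set.univ) {M : Set V} (hM : Cn X M) (hs : #M < κ) :
    ∃ v ∈ DD X A M, Gd X A κ v := by
  classical
  by_contra hno
  push Not at hno
  unfold Gd at hno
  push Not at hno
  choose! N hNc hNs hvN hNadj using hno
  obtain ⟨g, hg⟩ := exists_off hκ hN hfix M hs
  have hDDc : Cn X (DD X A M) := by
    rw [DD_eq hN hA hX hM hg]
    exact Dg_conn' hA hM hg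
  obtain ⟨v0, hv0⟩ := hDDc.1
  have hext : ∀ S : Set V, #S < κ → ∃ T : Set V, S ⊆ T ∧ Cn X T ∧ #T < κ := by
    intro S hS
    obtain ⟨T, h1, -, h2, h3⟩ := hX.exists_small hκ (Set.subset_univ S) hS
    exact ⟨T, h1, h2, h3⟩
  have hstep : ∀ T : Set V, #T < κ → ∃ T' : Set V, T ⊆ T' ∧ (∀ v ∈ T, v ∈ DD X A M → N v ⊆ T') ∧
      Cn X T' ∧ #T' < κ := by
    intro T hT
    have h1 : #(T ∪ ⋃ v : {v : T // v.1 ∈ DD X A M}, N v.1.1 : Set V) < κ := by
      refine (Cardinal.mk_union_le _ _).trans_lt (Cardinal.add_lt_of_lt hκ.aleph0_le hT ?_)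
      rw [Cardinal.card_iUnion_lt_iff_forall_of_isRegular hκ
        ((Cardinal.mk_subtype_le _).trans_lt hT)]
      intro v
      exact hNs v.1.1 v.2
    obtain ⟨T', h2, h3, h4⟩ := hext _ h1
    refine ⟨T', Set.subset_union_left.trans h2, ?_, h3, h4⟩
    intro v hv hvD
    exact (Set.subset_iUnion (fun v : {v : T // v.1 ∈ DD X A M} => N v.1.1) ⟨⟨v, hv⟩, hvD⟩).trans
      (Set.subset_union_right.trans h2)
  obtain ⟨T0, hT0sub, hT0c, hT0s⟩ := hext (insert v0 M)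
    ((Cardinal.mk_insert_le).trans_lt (Cardinal.add_lt_of_lt hκ.aleph0_le hs
      (Cardinal.one_lt_aleph0.trans hκ0)))
  choose! nx hnx1 hnx2 hnx3 hnx4 using hstep
  let T : ℕ → Set V := fun n => nx^[n] T0
  have hTsucc : ∀ n, T (n + 1) = nx (T n) := fun n => Function.iterate_succ_apply' nx n T0
  have hTs : ∀ n, #(T n) < κ := by
    intro n
    induction n with
    | zero => exact hT0s
    | succ n ih => rw [hTsucc]; exact hnx4 _ ih
  have hTc : ∀ n, Cn X (T n) := by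
    intro n
    cases n with
    | zero => exact hT0c
    | succ n => rw [hTsucc]; exact hnx3 _ (hTs n)
  have hTmono : Monotone T := by
    refine monotone_nat_of_le_succ (fun n => ?_)
    rw [hTsucc]
    exact hnx1 _ (hTs n)
  let W : Set V := ⋃ n, T n
  have hWs : #W < κ := by
    have hWU : W = ⋃ n : ULift.{u} ℕ, T n.down := by
      ext x
      simp only [W, Set.mem_iUnion]
      exact ⟨fun ⟨n, hn⟩ => ⟨ULift.up n, hn⟩, fun ⟨n, hn⟩ => ⟨n.down, hn⟩⟩
    rw [hWU, Cardinal.card_iUnion_lt_iff_forall_of_isRegular hκ (by simpa using hκ0)]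
    exact fun n => hTs n.down
  have hWc : Cn X W := by
    refine ⟨(hTc 0).1.mono (Set.subset_iUnion T 0), ?_⟩
    intro u hu v hv
    obtain ⟨m, hm⟩ := Set.mem_iUnion.1 hu
    obtain ⟨n, hn⟩ := Set.mem_iUnion.1 hv
    exact ((hTc (max m n)).2 u (hTmono (le_max_left m n) hm) v (hTmono (le_max_right m n) hn)).mono
      (Set.subset_iUnion T _)
  have hMW : M ⊆ W := ((Set.subset_insert v0 M).trans hT0sub).trans (Set.subset_iUnion T 0)
  have hv0W : v0 ∈ W := (Set.subset_iUnion T 0) (hT0sub (Set.mem_insert _ _))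
  obtain ⟨g', hg'⟩ := exists_off hκ hN hfix W hWs
  have hDW : DD X A W ⊆ DD X A M := DD_anti hκ hN hfix hA hX hM hWc hMW hWs
  have hDWne : (DD X A W).Nonempty := by
    obtain ⟨x, hx⟩ := hWc.1
    exact ⟨g' • x, g', hg', mem_Dg hx⟩
  obtain ⟨y, hy⟩ := hDWne
  -- path inside DD M from y to v0
  have hpath := hDDc.2 y (hDW hy) v0 hv0
  -- all vertices on the path are in DD W
  have key : ∀ z, Rch X (DD X A M) y z → z ∈ DD X A W := by
    intro z hz
    induction hz with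
    | refl => exact hy
    | @tail a b _ hab ih =>
      have ih' := ih
      rw [DD_eq hN hA hX hWc hg'] at ih' ⊢
      by_contra hb
      have hbW : b ∈ W := by
        by_contra hbW
        exact hb (Dg_cl hg' ih' hab.1 hbW)
      obtain ⟨n, hn⟩ := Set.mem_iUnion.1 hbW
      have h1 : N b ⊆ W := by
        refine (hnx2 (T n) (hTs n) b hn hab.2.2).trans ?_
        rw [← hTsucc]
        exact Set.subset_iUnion T (n + 1)
      have h2 : DD X A W ⊆ DD X A (N b) :=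
        DD_anti hκ hN hfix hA hX (hNc b hab.2.2) hWc h1 hWs
      exact hNadj b hab.2.2 a (h2 ih) hab.1.symm
  have h1 := key v0 hpath
  rw [DD_eq hN hA hX hWc hg'] at h1
  exact Dg_sub hg' h1 hv0W

theorem big_minor {κ : Cardinal.{u}} (hκ : κ.IsRegular) (hκ0 : ℵ₀ < κ) (hN : Nice κ A)
    (hfix : ∀ v : V, ∃ g : A, g • v ≠ v)
    (hA : ∀ (g : A) (u v : V), X.Adj u v → X.Adj (g • u) (g • v))
    (hX : Cn X Set.univ) :
    ∃ B : Set (Set V), κ ≤ #B ∧ (∀ b ∈ B, Cn X b) ∧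
      ∀ b ∈ B, ∀ b' ∈ B, b ≠ b' → Disjoint b b' ∧ ∃ u ∈ b, ∃ v ∈ b', X.Adj u v := by
  classical
  let P : Set (Set (Set V)) := {B | (∀ b ∈ B, Cn X b ∧ #b < κ ∧ ∃ v ∈ b, Gd X A κ v) ∧
      ∀ b ∈ B, ∀ b' ∈ B, b ≠ b' → Disjoint b b' ∧ ∃ u ∈ b, ∃ v ∈ b', X.Adj u v}
  obtain ⟨B, hB⟩ := zorn_subset P (by
    intro c hc hchain
    refine ⟨⋃₀ c, ⟨?_, ?_⟩, fun s hs => Set.subset_sUnion_of_mem hs⟩
    · rintro b ⟨s, hs, hbs⟩
      exact (hc hs).1 b hbs
    · rintro b ⟨s, hs, hbs⟩ b' ⟨s', hs', hbs'⟩ hne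
      rcases hchain.total hs hs' with h | h
      · exact (hc hs').2 b (h hbs) b' hbs' hne
      · exact (hc hs).2 b hbs b' (h hbs') hne)
  refine ⟨B, ?_, fun b hb => (hB.prop.1 b hb).1, hB.prop.2⟩
  by_contra hlt
  push Not at hlt
  have hU : #(⋃ b : B, b.1 : Set V) < κ := by
    rw [Cardinal.card_iUnion_lt_iff_forall_of_isRegular hκ hlt]
    exact fun b => (hB.prop.1 b.1 b.2).2.1
  obtain ⟨M, hUM, -, hMc, hMs⟩ := hX.exists_small hκ (Set.subset_univ _) hU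
  obtain ⟨g, hg⟩ := exists_off hκ hN hfix M hMs
  have hDDc : Cn X (DD X A M) := by
    rw [DD_eq hN hA hX hMc hg]
    exact Dg_conn' hA hMc hg
  have hDM : ∀ v ∈ DD X A M, v ∉ M := by
    intro v hv
    rw [DD_eq hN hA hX hMc hg] at hv
    exact Dg_sub hg hv
  have hbM : ∀ b ∈ B, b ⊆ M := fun b hb =>
    (Set.subset_iUnion (fun b : B => b.1) ⟨b, hb⟩).trans hUM
  obtain ⟨w, hwD, hwG⟩ := exists_good hκ hκ0 hN hfix hA hX hMc hMs
  have hd : ∀ b : B, ∃ d ∈ DD X A M, ∃ v ∈ b.1, X.Adj v d := by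
    intro b
    obtain ⟨v, hv, hvG⟩ := (hB.prop.1 b.1 b.2).2.2
    obtain ⟨d, hd, hvd⟩ := hvG M hMc hMs (hbM b.1 b.2 hv)
    exact ⟨d, hd, v, hv, hvd⟩
  choose d hdD v hvb hvd using hd
  have hS : #(insert w (Set.range d) : Set V) < κ :=
    (Cardinal.mk_insert_le).trans_lt (Cardinal.add_lt_of_lt hκ.aleph0_le
      (Cardinal.mk_range_le.trans_lt hlt) (Cardinal.one_lt_aleph0.trans hκ0))
  have hSD : insert w (Set.range d) ⊆ DD X A M := by
    refine Set.insert_subset hwD ?_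
    rintro _ ⟨b, rfl⟩
    exact hdD b
  obtain ⟨b0, hSb, hbD, hbc, hbs⟩ := hDDc.exists_small hκ hSD hS
  have hdisj : ∀ b ∈ B, Disjoint b b0 := by
    intro b hb
    rw [Set.disjoint_left]
    intro x hx hx'
    exact hDM x (hbD hx') (hbM b hb hx)
  have hadj : ∀ b (hb : b ∈ B), ∃ u ∈ b, ∃ v ∈ b0, X.Adj u v := by
    intro b hb
    exact ⟨v ⟨b, hb⟩, hvb ⟨b, hb⟩, d ⟨b, hb⟩, hSb (Set.mem_insert_of_mem _ ⟨_, rfl⟩), hvd ⟨b, hb⟩⟩
  have hins : insert b0 B ∈ P := by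
    refine ⟨?_, ?_⟩
    · rintro b (rfl | hb)
      · exact ⟨hbc, hbs, w, hSb (Set.mem_insert _ _), hwG⟩
      · exact hB.prop.1 b hb
    · rintro b (rfl | hb) b' (rfl | hb') hne
      · exact absurd rfl hne
      · refine ⟨(hdisj b' hb').symm, ?_⟩
        obtain ⟨u, hu, v, hv, huv⟩ := hadj b' hb'
        exact ⟨v, hv, u, hu, huv.symm⟩
      · exact ⟨hdisj b hb, hadj b hb⟩
      · exact hB.prop.2 b hb b' hb' hne
  have hb0B : b0 ∈ B := hB.le_of_ge hins (Set.subset_insert _ _) (Set.mem_insert _ _)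
  obtain ⟨x, hx⟩ := hbc.1
  exact Set.disjoint_left.1 (hdisj b0 hb0B) hx hx

end Pool.Agent.Helper999.UN
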