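import Mathlib
import Pool.Agent.Helper999.UN.GraphB

set_option autoImplicit false

/-!
If the full automorphism group of a graph is a nice group then the graph has a large clique minor.
-/

namespace Pool.Agent.Helper999.UN

open Pool.Agent.Helper999

open Cardinal

universe u

/-- An infinite type has a permutation of infinite order without fixed points and with a
two-element orbit. -/
theorem exists_weird_perm (O : Type u) [Infinite O] :
    ∃ σ : Equiv.Perm O, (∀ x, σ x ≠ x) ∧ (∃ x, σ (σ x) = x) ∧ ∀ n : ℕ, 0 < n → σ ^ n ≠ 1 := by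
  have hcard : #((ℤ × O) ⊕ Bool) = #O := by
    have h1 : ℵ₀ ≤ #O := Cardinal.aleph0_le_mk O
    have h2 : #(ℤ × O) = #O := by
      rw [Cardinal.mk_prod, Cardinal.mk_int, Cardinal.lift_aleph0, Cardinal.lift_uzero]
      exact Cardinal.mul_eq_right h1 h1 Cardinal.aleph0_ne_zero
    rw [Cardinal.mk_sum, Cardinal.lift_uzero, h2]
    have h3 : Cardinal.lift.{u} #Bool ≤ #O := by
      exact (Cardinal.lift_le_aleph0.2 (Cardinal.mk_le_aleph0 (α := Bool))).trans h1
    exact Cardinal.add_eq_left h1 h3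
  obtain ⟨e⟩ := Cardinal.eq.1 hcard
  let τ : Equiv.Perm ((ℤ × O) ⊕ Bool) :=
    Equiv.sumCongr ((Equiv.addRight (1 : ℤ)).prodCongr (Equiv.refl O)) Equiv.boolNot
  have hτ : ∀ (n : ℕ) (z : ℤ) (o : O), (τ ^ n) (Sum.inl (z, o)) = Sum.inl (z + n, o) := by
    intro n
    induction n with
    | zero => intro z o; simp
    | succ n ih =>
      intro z o
      rw [pow_succ', Equiv.Perm.mul_apply, ih]
      simp [τ, add_assoc]
  refine ⟨e.permCongr τ, ?_, ?_, ?_⟩
  · intro x hx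
    rw [Equiv.permCongr_apply] at hx
    have h1 : τ (e.symm x) = e.symm x := ((Equiv.eq_symm_apply e).2 hx)
    rcases h2 : e.symm x with ⟨z, o⟩ | b
    · rw [h2] at h1
      simp [τ] at h1
    · rw [h2] at h1
      simp [τ] at h1
  · refine ⟨e (Sum.inr true), ?_⟩
    simp [Equiv.permCongr_apply, τ]
  · intro n hn h
    have h1 : e.permCongr τ ^ n = e.permCongr (τ ^ n) := by
      have := map_pow (e.permCongrHom) τ n
      exact this.symm
    rw [h1] at h
    obtain ⟨o⟩ : Nonempty O := inferInstance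
    have h2 := congrArg (fun p : Equiv.Perm O => p (e (Sum.inl (0, o)))) h
    simp only [Equiv.permCongr_apply, Equiv.symm_apply_apply, hτ, Equiv.Perm.one_apply,
      EmbeddingLike.apply_eq_iff_eq, Sum.inl.injEq, Prod.mk.injEq] at h2
    have := h2.1
    omega

section full

variable {V : Type u} {X : SimpleGraph V} {A : Type u} [Group A] [MulAction A V]

/-- non-fixed vertices -/
def NF (V : Type u) (A : Type u) [Group A] [MulAction A V] : Set V := {v | ∃ g : A, g • v ≠ v}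

theorem smul_NF (g : A) (v : V) (hv : v ∈ NF V A) : g • v ∈ NF V A := by
  obtain ⟨h, hh⟩ := hv
  by_contra hno
  unfold NF at hno
  simp only [Set.mem_ofPred_eq, not_exists, not_not] at hno
  have h1 := hno g⁻¹
  rw [inv_smul_smul] at h1
  have h2 := hno h
  rw [← h1] at h2
  exact hh h2

/-- The components of the graph of non-fixed vertices are invariant. -/
theorem comp_invariant {κ : Cardinal.{u}} (hκ : κ.IsRegular) (hN : Nice κ A)
    (hA : ∀ (g : A) (u v : V), X.Adj u v → X.Adj (g • u) (g • v))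
    (hfull : ∀ σ : Equiv.Perm V, (∀ u v, X.Adj u v → X.Adj (σ u) (σ v)) →
      (∀ u v, X.Adj u v → X.Adj (σ.symm u) (σ.symm v)) → ∃ g : A, ∀ v, g • v = σ v)
    (v0 : V) (hv0 : v0 ∈ NF V A) (g0 : A) : Rch X (NF V A) v0 (g0 • v0) := by
  classical
  by_contra hcon
  let U : Set V := NF V A
  have hU : ∀ (g : A) (v : V), v ∈ U → g • v ∈ U := smul_NF
  let K : V → Set V := fun v => {u | Rch X U v u}
  have hK : ∀ u v, Rch X U u v → K u = K v := by
    intro u v h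
    ext w
    exact ⟨fun h' => h.symm.trans h', fun h' => h.trans h'⟩
  have hK' : ∀ u v, K u = K v → Rch X U u v := by
    intro u v h
    have : v ∈ K v := Rch.refl v
    rw [← h] at this
    exact this
  have hKs : ∀ (g : A) u v, K u = K v → K (g • u) = K (g • v) := by
    intro g u v h
    exact hK _ _ ((hK' _ _ h).smul hA g (hU g))
  let O : Type u := {C : Set V // ∃ h : A, C = K (h • v0)}
  choose h hh using fun C : O => C.2
  -- O is infinite
  let S : Subgroup A :=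
    { carrier := {s | Rch X U v0 (s • v0)}
      one_mem' := by
        change Rch X U v0 ((1 : A) • v0)
        rw [one_smul]; exact Rch.refl _
      mul_mem' := by
        intro a b ha hb
        change Rch X U v0 ((a * b) • v0)
        rw [mul_smul]
        have hb' : Rch X U (a • v0) (a • (b • v0)) := Rch.smul hA a (hU a) hb
        exact Rch.trans ha hb'
      inv_mem' := by
        intro a ha
        change Rch X U v0 (a⁻¹ • v0)
        have h1 : Rch X U (a⁻¹ • v0) (a⁻¹ • (a • v0)) := Rch.smul hA a⁻¹ (hU a⁻¹) ha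
        rw [inv_smul_smul] at h1
        exact h1.symm }
  have hO : Infinite O := by
    by_contra hfin
    rw [not_infinite_iff_finite] at hfin
    have hOκ : #O < κ := (Cardinal.lt_aleph0_of_finite O).trans_le hκ.aleph0_le
    obtain ⟨c, hc⟩ := hN.cover O hOκ (fun _ => S) h (by
      intro _ htop
      apply hcon
      have : g0 ∈ S := by rw [htop]; trivial
      exact this)
    have h1 := hc ⟨K (c • v0), c, rfl⟩
    apply h1
    have h2 : K (c • v0) = K (h ⟨K (c • v0), c, rfl⟩ • v0) := hh ⟨K (c • v0), c, rfl⟩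
    have h3 := hKs (h ⟨K (c • v0), c, rfl⟩)⁻¹ _ _ h2.symm
    rw [inv_smul_smul, ← mul_smul] at h3
    exact hK' _ _ h3
  -- the automorphisms
  let ψ : Equiv.Perm O → V → V := fun σ u =>
    if hu : u ∈ U ∧ ∃ a : A, K u = K (a • v0) then
      (h (σ ⟨K u, hu.2⟩) * (h ⟨K u, hu.2⟩)⁻¹) • u else u
  have hψ1 : ∀ (σ : Equiv.Perm O) (u : V) (hu : u ∈ U) (hu' : ∃ a : A, K u = K (a • v0)),
      ψ σ u = (h (σ ⟨K u, hu'⟩) * (h ⟨K u, hu'⟩)⁻¹) • u := by
    intro σ u hu hu'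
    simp only [ψ]
    rw [dif_pos ⟨hu, hu'⟩]
  have hψ2 : ∀ (σ : Equiv.Perm O) (u : V), ¬ (u ∈ U ∧ ∃ a : A, K u = K (a • v0)) → ψ σ u = u := by
    intro σ u hu
    simp only [ψ]
    rw [dif_neg hu]
  have hψK : ∀ (σ : Equiv.Perm O) (u : V) (hu : u ∈ U) (hu' : ∃ a : A, K u = K (a • v0)),
      ψ σ u ∈ U ∧ K (ψ σ u) = (σ ⟨K u, hu'⟩).1 := by
    intro σ u hu hu'
    rw [hψ1 σ u hu hu']
    refine ⟨hU _ _ hu, ?_⟩
    rw [mul_smul]
    have h1 : K u = K (h ⟨K u, hu'⟩ • v0) := hh ⟨K u, hu'⟩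
    have h2 := hKs (h ⟨K u, hu'⟩)⁻¹ _ _ h1
    rw [inv_smul_smul] at h2
    have h3 := hKs (h (σ ⟨K u, hu'⟩)) _ _ h2
    rw [h3]
    exact (hh (σ ⟨K u, hu'⟩)).symm
  have hψmul : ∀ (σ τ : Equiv.Perm O) (u : V), ψ σ (ψ τ u) = ψ (σ * τ) u := by
    intro σ τ u
    by_cases hu : u ∈ U ∧ ∃ a : A, K u = K (a • v0)
    · obtain ⟨hu1, hu2⟩ := hu
      obtain ⟨h1, h2⟩ := hψK τ u hu1 hu2
      have h3 : ∃ a : A, K (ψ τ u) = K (a • v0) := by
        rw [h2]; exact (τ ⟨K u, hu2⟩).2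
      rw [hψ1 σ (ψ τ u) h1 h3, hψ1 (σ * τ) u hu1 hu2]
      have h4 : (⟨K (ψ τ u), h3⟩ : O) = τ ⟨K u, hu2⟩ := Subtype.ext h2
      rw [h4, Equiv.Perm.mul_apply, hψ1 τ u hu1 hu2, ← mul_smul]
      congr 1
      group
    · rw [hψ2 τ u hu, hψ2 σ u hu, hψ2 (σ * τ) u hu]
  have hψone : ∀ u, ψ 1 u = u := by
    intro u
    by_cases hu : u ∈ U ∧ ∃ a : A, K u = K (a • v0)
    · obtain ⟨hu1, hu2⟩ := hu
      rw [hψ1 1 u hu1 hu2, Equiv.Perm.one_apply, mul_inv_cancel, one_smul]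
    · exact hψ2 1 u hu
  have hfixed : ∀ w, w ∉ U → ∀ a : A, a • w = w := by
    intro w hw a
    by_contra hne
    exact hw ⟨a, hne⟩
  have hψadj : ∀ (σ : Equiv.Perm O) (u w : V), X.Adj u w → X.Adj (ψ σ u) (ψ σ w) := by
    have aux : ∀ (σ : Equiv.Perm O) (u w : V), X.Adj u w →
        (u ∈ U ∧ ∃ a : A, K u = K (a • v0)) → X.Adj (ψ σ u) (ψ σ w) := by
      rintro σ u w huw ⟨hu1, hu2⟩
      by_cases hw : w ∈ U
      · have hKw : K u = K w := hK u w ((Rch.refl u).step huw hu1 hw)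
        have hw2 : ∃ a : A, K w = K (a • v0) := by rw [← hKw]; exact hu2
        rw [hψ1 σ u hu1 hu2, hψ1 σ w hw hw2]
        have h4 : (⟨K u, hu2⟩ : O) = ⟨K w, hw2⟩ := Subtype.ext hKw
        rw [h4]
        exact hA _ _ _ huw
      · rw [hψ1 σ u hu1 hu2, hψ2 σ w (fun h' => hw h'.1)]
        have := hA (h (σ ⟨K u, hu2⟩) * (h ⟨K u, hu2⟩)⁻¹) _ _ huw
        rwa [hfixed w hw] at this
    intro σ u w huw
    by_cases hu : u ∈ U ∧ ∃ a : A, K u = K (a • v0)
    · exact aux σ u w huw hu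
    · by_cases hw : w ∈ U ∧ ∃ a : A, K w = K (a • v0)
      · exact (aux σ w u huw.symm hw).symm
      · rw [hψ2 σ u hu, hψ2 σ w hw]
        exact huw
  have hgrp : ∀ σ : Equiv.Perm O, ∃ g : A, ∀ v, g • v = ψ σ v := by
    intro σ
    let p : Equiv.Perm V :=
      { toFun := ψ σ
        invFun := ψ σ⁻¹
        left_inv := fun v => by rw [hψmul, inv_mul_cancel, hψone]
        right_inv := fun v => by rw [hψmul, mul_inv_cancel, hψone] }
    exact hfull p (hψadj σ) (hψadj σ⁻¹)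
  obtain ⟨σ, hσ1, ⟨C1, hC1⟩, hσ3⟩ := exists_weird_perm O
  obtain ⟨g, hg⟩ := hgrp σ
  have hgpow : ∀ (n : ℕ) (v : V), g ^ n • v = ψ (σ ^ n) v := by
    intro n
    induction n with
    | zero => intro v; rw [pow_zero, pow_zero, one_smul, hψone]
    | succ n ih => intro v; rw [pow_succ', pow_succ', mul_smul, ih, hg, hψmul]
  have hKh : ∀ C : O, h C • v0 ∈ U ∧ ∃ hu' : ∃ a : A, K (h C • v0) = K (a • v0),
      (⟨K (h C • v0), hu'⟩ : O) = C := by
    intro C
    exact ⟨hU _ _ hv0, ⟨⟨h C, rfl⟩, Subtype.ext (hh C).symm⟩⟩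
  rcases hN.sq g with ⟨n, hn, hgn⟩ | ⟨t, ht⟩
  · apply hσ3 n hn
    ext C : 1
    obtain ⟨h1, h2, h3⟩ := hKh C
    obtain ⟨-, h4⟩ := hψK (σ ^ n) (h C • v0) h1 h2
    rw [← hgpow, hgn, one_smul, h3] at h4
    rw [Equiv.Perm.one_apply]
    apply Subtype.ext
    rw [← h4]
    exact congrArg Subtype.val h3
  · obtain ⟨h1, h2, h3⟩ := hKh C1
    obtain ⟨-, h4⟩ := hψK (σ ^ 2) (h C1 • v0) h1 h2
    rw [h3] at h4
    have h5 : (σ ^ 2) C1 = C1 := by rw [pow_two, Equiv.Perm.mul_apply, hC1]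
    rw [h5, ← hgpow] at h4
    -- K (g^2 u1) = C1 = K u1
    have h6 : K (g ^ 2 • (h C1 • v0)) = K (h C1 • v0) := by
      rw [h4]; exact (congrArg Subtype.val h3).symm
    have h7 := hKs t⁻¹ _ _ h6
    rw [← ht, mul_smul, mul_smul, inv_smul_smul] at h7
    -- u2 = t⁻¹ u1
    have hu2 : t⁻¹ • (h C1 • v0) ∈ U := hU _ _ h1
    have hu2' : ∃ a : A, K (t⁻¹ • (h C1 • v0)) = K (a • v0) := ⟨t⁻¹ * h C1, by rw [mul_smul]⟩
    obtain ⟨-, h8⟩ := hψK σ _ hu2 hu2'
    rw [← hg, h7] at h8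
    exact hσ1 ⟨K (t⁻¹ • (h C1 • v0)), hu2'⟩ (Subtype.ext h8.symm)

theorem full_minor {κ : Cardinal.{u}} (hκ : κ.IsRegular) (hκ0 : ℵ₀ < κ) (hN : Nice κ A)
    (hA : ∀ (g : A) (u v : V), X.Adj u v → X.Adj (g • u) (g • v))
    (hfull : ∀ σ : Equiv.Perm V, (∀ u v, X.Adj u v → X.Adj (σ u) (σ v)) →
      (∀ u v, X.Adj u v → X.Adj (σ.symm u) (σ.symm v)) → ∃ g : A, ∀ v, g • v = σ v)
    (hfaith : ∀ g : A, (∀ v : V, g • v = v) → g = 1) (U₀ : Type u) (hU₀ : #U₀ ≤ κ) :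
    ∃ b : U₀ → Set V, (∀ i, Cn X (b i)) ∧
      ∀ i j, i ≠ j → Disjoint (b i) (b j) ∧ ∃ u ∈ b i, ∃ v ∈ b j, X.Adj u v := by
  classical
  obtain ⟨v0, hv0⟩ : ∃ v0 : V, v0 ∈ NF V A := by
    have := hN.nontriv
    obtain ⟨g, hg⟩ := exists_ne (1 : A)
    by_contra hno
    push Not at hno
    apply hg
    apply hfaith
    intro v
    by_contra hne
    exact hno v ⟨g, hne⟩
  let C : Set V := {u | Rch X (NF V A) v0 u}
  have hCNF : ∀ u ∈ C, u ∈ NF V A := fun u hu => Rch.mem hu hv0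
  have hCinv : ∀ (g : A) (u : V), u ∈ C → g • u ∈ C := fun g u hu =>
    Rch.trans hu (comp_invariant hκ hN hA hfull u (hCNF u hu) g)
  let act : MulAction A C :=
    { smul := fun g u => ⟨g • u.1, hCinv g u.1 u.2⟩
      one_smul := fun u => Subtype.ext (one_smul A u.1)
      mul_smul := fun g h u => Subtype.ext (mul_smul g h u.1) }
  have hact : ∀ (g : A) (u : C), ((g • u : C) : V) = g • u.1 := fun _ _ => rfl
  have hX' : Cn (X.induce C) Set.univ := by
    refine ⟨⟨⟨v0, Rch.refl _⟩, trivial⟩, ?_⟩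
    have h1 : ∀ w (hw : w ∈ C), Rch (X.induce C) Set.univ ⟨v0, Rch.refl _⟩ ⟨w, hw⟩ := by
      intro w hw
      have hw' : Rch X (NF V A) v0 w := hw
      induction hw' with
      | refl => exact Rch.refl _
      | @tail a b hab h ih =>
        exact (ih hab).step (by simpa using h.1) trivial trivial
    intro u _ w _
    exact (h1 u.1 u.2).symm.trans (h1 w.1 w.2)
  obtain ⟨B, hB1, hB2, hB3⟩ := big_minor (A := A) (X := X.induce C) hκ hκ0 hN (by
      intro u
      obtain ⟨g, hg⟩ := hCNF u.1 u.2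
      exact ⟨g, fun h => hg (congrArg Subtype.val h)⟩)
    (by
      intro g u v huv
      exact hA g u.1 v.1 huv) hX'
  obtain ⟨f⟩ : Nonempty (U₀ ↪ B) := Cardinal.le_def _ _ |>.1 (hU₀.trans hB1)
  refine ⟨fun i => Subtype.val '' (f i).1, ?_, ?_⟩
  · intro i
    have hc := hB2 (f i).1 (f i).2
    refine ⟨hc.1.image _, ?_⟩
    rintro _ ⟨u, hu, rfl⟩ _ ⟨v, hv, rfl⟩
    have h1 := hc.2 u hu v hv
    clear hv
    induction h1 with
    | refl => exact Rch.refl _
    | tail _ h ih =>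
      exact ih.step h.1 ⟨_, h.2.1, rfl⟩ ⟨_, h.2.2, rfl⟩
  · intro i j hij
    have hne : (f i).1 ≠ (f j).1 := fun h => hij (f.injective (Subtype.ext h))
    obtain ⟨h1, u, hu, v, hv, huv⟩ := hB3 (f i).1 (f i).2 (f j).1 (f j).2 hne
    refine ⟨?_, u.1, ⟨u, hu, rfl⟩, v.1, ⟨v, hv, rfl⟩, huv⟩
    rw [Set.disjoint_left] at h1 ⊢
    rintro _ ⟨x, hx, rfl⟩ ⟨y, hy, hyx⟩
    have : y = x := Subtype.ext hyx
    subst this
    exact h1 hx hy

end full

end Pool.Agent.Helper999.UN
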